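import Mathlib

/-!
# Power series estimates for the jet bundles of a hypersurface

For the weighted sum of the bundles `T_X(-2j)`, `j = 1, ..., k`, on a hypersurface of degree `d` and dimension
`n` the intersection numbers of `A = O(1) + 2h` are `A^N = d (k!)^(-n) [x^n] Φ` and
`A^(N-1).h = d (k!)^(-n) [x^(n-1)] Φ`, `N = n + k n - 1`, where
`Φ = ∏ (1 - 2x) (1 + (d/j - 2)x) / (1 - (2 - 1/j)x)^(n+2)`.
-/

set_option autoImplicit false

open Finset PowerSeries

namespace Pool.Agent.H39.KB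

/-- the coefficients up to degree `n` are nonnegative -/
def NN (n : ℕ) (f : PowerSeries ℝ) : Prop := ∀ i ≤ n, 0 ≤ coeff i f

/-- comparison of the coefficients up to degree `n` -/
def Le (n : ℕ) (f g : PowerSeries ℝ) : Prop := ∀ i ≤ n, coeff i f ≤ coeff i g

variable {n : ℕ} {f g f' g' : PowerSeries ℝ}

theorem NN.mul (hf : NN n f) (hg : NN n g) : NN n (f * g) := by
  intro i hi
  rw [coeff_mul]
  refine Finset.sum_nonneg fun p hp => ?_
  have h := Finset.HasAntidiagonal.mem_antidiagonal.1 hp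
  exact mul_nonneg (hf _ (by omega)) (hg _ (by omega))

theorem Le.refl : Le n f f := fun _ _ => le_refl _

theorem NN.trans (hf : NN n f) (h : Le n f f') : NN n f' := fun i hi => (hf i hi).trans (h i hi)

theorem Le.mul (hf : NN n f) (hg : NN n g) (h : Le n f f') (h' : Le n g g') : Le n (f * g) (f' * g') := by
  intro i hi
  rw [coeff_mul, coeff_mul]
  refine Finset.sum_le_sum fun p hp => ?_
  have hp := Finset.HasAntidiagonal.mem_antidiagonal.1 hp
  exact mul_le_mul (h _ (by omega)) (h' _ (by omega)) (hg _ (by omega)) ((hf.trans h) _ (by omega))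

theorem nn_one : NN n 1 := by
  intro i _
  rw [coeff_one]
  split_ifs
  · exact zero_le_one
  · exact le_refl _

theorem nn_prod (s : Finset ℕ) (F : ℕ → PowerSeries ℝ) (h : ∀ j ∈ s, NN n (F j)) :
    NN n (∏ j ∈ s, F j) := by
  classical
  induction s using Finset.induction_on with
  | empty => rw [Finset.prod_empty]; exact nn_one
  | insert a s ha ih =>
    rw [Finset.prod_insert ha]
    exact (h a (Finset.mem_insert_self _ _)).mul (ih fun j hj => h j (Finset.mem_insert_of_mem hj))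

theorem le_prod (s : Finset ℕ) (F G : ℕ → PowerSeries ℝ) (h : ∀ j ∈ s, NN n (F j))
    (h' : ∀ j ∈ s, Le n (F j) (G j)) : Le n (∏ j ∈ s, F j) (∏ j ∈ s, G j) := by
  classical
  induction s using Finset.induction_on with
  | empty => exact Le.refl
  | insert a s ha ih =>
    rw [Finset.prod_insert ha, Finset.prod_insert ha]
    exact Le.mul (h a (Finset.mem_insert_self _ _))
      (nn_prod s F fun j hj => h j (Finset.mem_insert_of_mem hj))
      (h' a (Finset.mem_insert_self _ _))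
      (ih (fun j hj => h j (Finset.mem_insert_of_mem hj)) fun j hj => h' j (Finset.mem_insert_of_mem hj))

/-! ## Elementary symmetric functions of `1, 1/2, ..., 1/k` -/

/-- `e_i(1, 1/2, ..., 1/k)` -/
noncomputable def e (k i : ℕ) : ℝ := coeff i (∏ j ∈ range k, (1 + C (1 / ((j : ℝ) + 1)) * X))

theorem e_zero (k : ℕ) : e k 0 = 1 := by
  unfold e
  induction k with
  | zero => simp
  | succ k ih =>
    rw [Finset.prod_range_succ, mul_add, mul_one, map_add, ih, ← mul_assoc, coeff_zero_mul_X, add_zero]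

theorem e_zero_succ (i : ℕ) : e 0 (i + 1) = 0 := by
  unfold e
  rw [Finset.prod_range_zero, coeff_one, if_neg (Nat.succ_ne_zero i)]

theorem e_succ (k i : ℕ) : e (k + 1) (i + 1) = e k (i + 1) + 1 / ((k : ℝ) + 1) * e k i := by
  unfold e
  rw [Finset.prod_range_succ, mul_add, mul_one, map_add, ← mul_assoc, coeff_succ_mul_X, mul_comm _ (C _),
    coeff_C_mul]

theorem e_nonneg (k i : ℕ) : 0 ≤ e k i := by
  induction k generalizing i with
  | zero =>
    rcases i with _ | i
    · rw [e_zero]; exact zero_le_one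
    · rw [e_zero_succ]
  | succ k ih =>
    rcases i with _ | i
    · rw [e_zero]; exact zero_le_one
    · rw [e_succ]
      have h1 := ih (i + 1)
      have h2 := ih i
      positivity

theorem e_eq_zero {k i : ℕ} (h : k < i) : e k i = 0 := by
  induction k generalizing i with
  | zero =>
    rcases i with _ | i
    · omega
    · exact e_zero_succ i
  | succ k ih =>
    rcases i with _ | i
    · omega
    · rw [e_succ, ih (by omega), ih (by omega)]
      ring

theorem e_mono (k i : ℕ) : e k i ≤ e (k + 1) i := by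
  rcases i with _ | i
  · rw [e_zero, e_zero]
  · rw [e_succ]
    have h2 := e_nonneg k i
    have : 0 ≤ 1 / ((k : ℝ) + 1) * e k i := by positivity
    linarith

theorem e_diag (k : ℕ) : e k k = 1 / (k.factorial : ℝ) := by
  induction k with
  | zero => rw [e_zero]; norm_num
  | succ k ih =>
    rw [e_succ, e_eq_zero (Nat.lt_succ_self k), ih, zero_add, Nat.factorial_succ, Nat.cast_mul,
      Nat.cast_add, Nat.cast_one]
    rw [one_div_mul_one_div]

theorem le_e {k i : ℕ} (h : i ≤ k) : 1 / (i.factorial : ℝ) ≤ e k i := by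
  induction k, h using Nat.le_induction with
  | base => rw [e_diag]
  | succ k _ ih => exact ih.trans (e_mono k i)

theorem e_pos {k i : ℕ} (h : i ≤ k) : 0 < e k i := lt_of_lt_of_le (by positivity) (le_e h)

/-- adding an index -/
theorem e_add (k i : ℕ) : (∑ j ∈ Ico i k, 1 / ((j : ℝ) + 1)) * e k i ≤ (i + 1) * e k (i + 1) := by
  induction k generalizing i with
  | zero =>
    rw [e_zero_succ, mul_zero]
    simp
  | succ k ih =>
    rcases lt_or_ge k i with h | h
    · rw [Finset.Ico_eq_empty (by omega), Finset.sum_empty, zero_mul]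
      have := e_nonneg (k + 1) (i + 1)
      positivity
    · rw [Finset.sum_Ico_succ_top h, e_succ]
      have h1 := ih i
      have hk : (0 : ℝ) < (k : ℝ) + 1 := by positivity
      rcases i with _ | i
      · rw [e_zero, e_zero] at *
        push_cast at *
        linarith
      · have h2 := ih i
        rw [e_succ k i]
        have h3 : ∑ j ∈ Ico i k, 1 / ((j : ℝ) + 1) =
            1 / ((i : ℝ) + 1) + ∑ j ∈ Ico (i + 1) k, 1 / ((j : ℝ) + 1) :=
          Finset.sum_eq_sum_Ico_succ_bot (by omega) _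
        rw [h3] at h2
        have h4 : 1 / ((k : ℝ) + 1) ≤ 1 / ((i : ℝ) + 1) := by
          have : (i : ℝ) ≤ k := by exact_mod_cast (by omega : i ≤ k)
          exact one_div_le_one_div_of_le (by positivity) (by linarith)
        have h5 := e_nonneg k i
        have h6 := mul_le_mul_of_nonneg_right h4 h5
        set S := ∑ j ∈ Ico (i + 1) k, 1 / ((j : ℝ) + 1) with hS
        have h7 : (1 / ((k : ℝ) + 1)) * ((S + 1 / ((k : ℝ) + 1)) * e k i) ≤
            (1 / ((k : ℝ) + 1)) * (((i : ℝ) + 1) * e k (i + 1)) := by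
          refine mul_le_mul_of_nonneg_left ?_ (by positivity)
          linarith
        push_cast at *
        nlinarith [h1, h7]

/-! ## The factors -/

theorem inv_eq (b : ℝ) : (1 - C b * X : PowerSeries ℝ)⁻¹ = rescale b (mk 1) := by
  symm
  rw [eq_inv_iff_mul_eq_one (by simp)]
  have h := congrArg (rescale b) (mk_one_mul_one_sub_eq_one ℝ)
  rw [map_mul, map_sub, map_one, rescale_X] at h
  exact h

theorem coeff_inv_pow (b : ℝ) (m i : ℕ) :
    coeff i ((1 - C b * X : PowerSeries ℝ)⁻¹ ^ (m + 1)) = b ^ i * ((m + i).choose m : ℝ) := by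
  rw [inv_eq, ← map_pow, mk_one_pow_eq_mk_choose_add, coeff_rescale, coeff_mk]

theorem coeff_one_sub (c : ℝ) (F : PowerSeries ℝ) (i : ℕ) :
    coeff (i + 1) ((1 - C c * X) * F) = coeff (i + 1) F - c * coeff i F := by
  rw [sub_mul, one_mul, map_sub, mul_assoc, coeff_C_mul, coeff_succ_X_mul]

theorem coeff_one_sub_zero (c : ℝ) (F : PowerSeries ℝ) :
    coeff 0 ((1 - C c * X) * F) = coeff 0 F := by
  rw [sub_mul, one_mul, map_sub, mul_assoc, coeff_C_mul, coeff_zero_X_mul, mul_zero, sub_zero]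

/-- `(1 - 2x)/(1 - bx)^(n+2)` -/
noncomputable def u (n : ℕ) (b : ℝ) : PowerSeries ℝ := (1 - C 2 * X) * (1 - C b * X)⁻¹ ^ (n + 2)

theorem u_coeff_zero (n : ℕ) (b : ℝ) : coeff 0 (u n b) = 1 := by
  unfold u
  rw [coeff_one_sub_zero, coeff_inv_pow]
  simp

theorem u_coeff_succ (n : ℕ) (b : ℝ) (i : ℕ) : coeff (i + 1) (u n b) =
    b ^ (i + 1) * ((n + 1 + (i + 1)).choose (n + 1) : ℝ) - 2 * (b ^ i * ((n + 1 + i).choose (n + 1) : ℝ)) := by
  unfold u
  rw [coeff_one_sub, coeff_inv_pow, coeff_inv_pow]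

theorem choose_le (n i : ℕ) (h : i ≤ n) :
    2 * ((n + 1 + i).choose (n + 1) : ℝ) ≤ ((n + 1 + (i + 1)).choose (n + 1) : ℝ) := by
  have h1 := Nat.choose_mul_succ_eq (n + 1 + i) (n + 1)
  have h2 : n + 1 + i + 1 - (n + 1) = i + 1 := by omega
  rw [h2] at h1
  have h3 : (2 * (i + 1)) * (n + 1 + i).choose (n + 1) ≤ (n + 1 + i + 1) * (n + 1 + i).choose (n + 1) :=
    Nat.mul_le_mul_right _ (by omega)
  have h4 : (i + 1) * (2 * (n + 1 + i).choose (n + 1)) ≤ (i + 1) * (n + 1 + (i + 1)).choose (n + 1) := by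
    have e1 : n + 1 + (i + 1) = n + 1 + i + 1 := by omega
    rw [e1]
    nlinarith [h1, h3]
  have h5 := Nat.le_of_mul_le_mul_left h4 (Nat.succ_pos i)
  exact_mod_cast h5

theorem nn_u (n : ℕ) {b : ℝ} (hb : 1 ≤ b) : NN n (u n b) := by
  intro i hi
  rcases i with _ | i
  · rw [u_coeff_zero]; exact zero_le_one
  · rw [u_coeff_succ]
    have h1 := choose_le n i (by omega)
    have h2 : 0 < b ^ i := by positivity
    have h3 : b ^ i * (2 * ((n + 1 + i).choose (n + 1) : ℝ)) ≤
        b ^ i * ((n + 1 + (i + 1)).choose (n + 1) : ℝ) := mul_le_mul_of_nonneg_left h1 h2.le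
    have h4 : b ^ i * ((n + 1 + (i + 1)).choose (n + 1) : ℝ) ≤
        b ^ (i + 1) * ((n + 1 + (i + 1)).choose (n + 1) : ℝ) :=
      mul_le_mul_of_nonneg_right (pow_le_pow_right₀ hb (by omega)) (by positivity)
    linarith

theorem one_le_u (n : ℕ) {b : ℝ} (hb : 1 ≤ b) : Le n 1 (u n b) := by
  intro i hi
  rcases i with _ | i
  · rw [u_coeff_zero, coeff_one, if_pos rfl]
  · rw [coeff_one, if_neg (Nat.succ_ne_zero i)]
    exact nn_u n hb _ hi

theorem u_le (n : ℕ) {b : ℝ} (hb : 1 ≤ b) (hb' : b ≤ 2) : Le n (u n b) ((1 - C 2 * X)⁻¹ ^ (n + 2)) := by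
  intro i _
  rcases i with _ | i
  · rw [u_coeff_zero, coeff_inv_pow]
    simp
  · rw [u_coeff_succ, coeff_inv_pow]
    have h1 : b ^ (i + 1) * ((n + 1 + (i + 1)).choose (n + 1) : ℝ) ≤
        2 ^ (i + 1) * ((n + 1 + (i + 1)).choose (n + 1) : ℝ) :=
      mul_le_mul_of_nonneg_right (pow_le_pow_left₀ (by linarith) hb' _) (by positivity)
    have h2 : 0 ≤ 2 * (b ^ i * ((n + 1 + i).choose (n + 1) : ℝ)) := by positivity
    linarith

theorem coeff_lin (c : ℝ) (i : ℕ) : coeff i (1 + C c * X : PowerSeries ℝ) =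
    if i = 0 then 1 else if i = 1 then c else 0 := by
  rw [map_add, coeff_one, coeff_C_mul, coeff_X]
  rcases i with _ | _ | i
  · simp
  · simp
  · simp

theorem nn_lin {c : ℝ} (hc : 0 ≤ c) : NN n (1 + C c * X) := by
  intro i _
  rw [coeff_lin]
  split_ifs
  · exact zero_le_one
  · exact hc
  · exact le_refl _

theorem lin_le {c c' : ℝ} (hc : c ≤ c') : Le n (1 + C c * X) (1 + C c' * X) := by
  intro i _
  rw [coeff_lin, coeff_lin]
  split_ifs
  · exact le_refl _
  · exact hc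
  · exact le_refl _

theorem rescale_const (c a : ℝ) : rescale c (C a) = C a := by
  ext i
  rw [coeff_rescale, coeff_C]
  split_ifs with h
  · rw [h, pow_zero, one_mul]
  · rw [mul_zero]

/-- scaling -/
theorem coeff_lin_prod (k : ℕ) (c : ℝ) (i : ℕ) :
    coeff i (∏ j ∈ range k, (1 + C (c * (1 / ((j : ℝ) + 1))) * X)) = c ^ i * e k i := by
  unfold e
  rw [← coeff_rescale]
  congr 1
  rw [map_prod]
  refine Finset.prod_congr rfl fun j _ => ?_
  rw [map_add, map_one, map_mul, map_mul, rescale_X, rescale_const]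
  ring

/-- The power series `Φ`. -/
noncomputable def Phi (n k : ℕ) (d : ℝ) : PowerSeries ℝ :=
  ∏ j ∈ range k, ((1 - C 2 * X) * (1 + C (d / ((j : ℝ) + 1) - 2) * X) *
    (1 - C (2 - 1 / ((j : ℝ) + 1)) * X)⁻¹ ^ (n + 2))

theorem Phi_eq (n k : ℕ) (d : ℝ) : Phi n k d = (∏ j ∈ range k, u n (2 - 1 / ((j : ℝ) + 1))) *
    ∏ j ∈ range k, (1 + C (d / ((j : ℝ) + 1) - 2) * X) := by
  unfold Phi u
  rw [← Finset.prod_mul_distrib]
  refine Finset.prod_congr rfl fun j _ => ?_
  ring

theorem b_bounds (j : ℕ) : (1 : ℝ) ≤ 2 - 1 / ((j : ℝ) + 1) ∧ 2 - 1 / ((j : ℝ) + 1) ≤ 2 := by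
  have h1 : 0 < 1 / ((j : ℝ) + 1) := by positivity
  have h2 : 1 / ((j : ℝ) + 1) ≤ 1 := by
    rw [div_le_one (by positivity)]
    have : (0 : ℝ) ≤ j := by positivity
    linarith
  constructor <;> linarith

theorem nn_u_prod (n k : ℕ) : NN n (∏ j ∈ range k, u n (2 - 1 / ((j : ℝ) + 1))) :=
  nn_prod _ _ fun j _ => nn_u n (b_bounds j).1

theorem lin_nonneg {k : ℕ} {d : ℝ} (hd : 2 * k ≤ d) {j : ℕ} (hj : j ∈ range k) :
    0 ≤ d / ((j : ℝ) + 1) - 2 := by
  have h1 : (0 : ℝ) < (j : ℝ) + 1 := by positivity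
  have h2 : (j : ℝ) + 1 ≤ k := by exact_mod_cast Finset.mem_range.1 hj
  rw [sub_nonneg, le_div_iff₀ h1]
  linarith

/-- lower bound -/
theorem phi_lower (n k : ℕ) (hk : 0 < k) {d : ℝ} (hd : 2 * k ≤ d) :
    (1 - 2 * k / d) ^ n * d ^ n * e k n ≤ coeff n (Phi n k d) := by
  have hk' : (0 : ℝ) < k := by exact_mod_cast hk
  have hd0 : 0 < d := by linarith
  have h0 : 0 ≤ 1 - 2 * k / d := by
    rw [sub_nonneg, div_le_one hd0]
    exact hd
  rw [Phi_eq, ← mul_pow, ← coeff_lin_prod]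
  have h1 : NN n (∏ j ∈ range k, (1 + C ((1 - 2 * k / d) * d * (1 / ((j : ℝ) + 1))) * X)) :=
    nn_prod _ _ fun j _ => nn_lin (by positivity)
  have h2 : Le n (∏ j ∈ range k, (1 + C ((1 - 2 * k / d) * d * (1 / ((j : ℝ) + 1))) * X))
      (∏ j ∈ range k, (1 + C (d / ((j : ℝ) + 1) - 2) * X)) := by
    refine le_prod _ _ _ (fun j _ => nn_lin (by positivity)) fun j hj => lin_le ?_
    have h3 : (j : ℝ) + 1 ≤ k := by exact_mod_cast Finset.mem_range.1 hj
    have h4 : (0 : ℝ) < (j : ℝ) + 1 := by positivity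
    have e1 : (1 - 2 * k / d) * d * (1 / ((j : ℝ) + 1)) = d / ((j : ℝ) + 1) - 2 * (k / ((j : ℝ) + 1)) := by
      field_simp
    rw [e1]
    have h5 : 1 ≤ (k : ℝ) / ((j : ℝ) + 1) := by
      rw [le_div_iff₀ h4]
      linarith
    linarith
  have h3 := Le.mul (n := n) nn_one h1
    (f' := ∏ j ∈ range k, u n (2 - 1 / ((j : ℝ) + 1))) (by
      have := le_prod (n := n) (range k) (fun _ => 1) (fun j => u n (2 - 1 / ((j : ℝ) + 1)))
        (fun _ _ => nn_one) (fun j _ => one_le_u n (b_bounds j).1)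
      rw [Finset.prod_const_one] at this
      exact this) h2 n (le_refl _)
  rw [one_mul] at h3
  exact h3

/-- the binomial series -/
theorem sum_choose_le (m N : ℕ) {x : ℝ} (h0 : 0 ≤ x) (h1 : x < 1) :
    ∑ b ∈ range N, x ^ b * ((m + b).choose m : ℝ) ≤ 1 / (1 - x) ^ (m + 1) := by
  have h := hasSum_choose_mul_geometric_of_norm_lt_one m (r := x) (by
    rw [Real.norm_of_nonneg h0]
    exact h1)
  have h2 := sum_le_hasSum (range N) (fun b _ => by positivity) h
  refine le_trans (le_of_eq ?_) h2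
  refine Finset.sum_congr rfl fun b _ => ?_
  rw [mul_comm, add_comm m b]

/-- upper bound; `r` is at least the ratios `e_i / e_(i+1)` -/
theorem phi_upper (n k m : ℕ) (hk : 0 < k) {d r : ℝ} (hd : 2 * k ≤ d) (hr : 0 ≤ r) (hr' : 2 * r < d)
    (h : ∀ i < m, e k i ≤ r * e k (i + 1)) (hm : m ≤ n) :
    coeff m (Phi n k d) * (1 - 2 * r / d) ^ (k * (n + 2)) ≤ d ^ m * e k m := by
  have hk' : (0 : ℝ) < k := by exact_mod_cast hk
  have hd0 : 0 < d := by linarith
  obtain ⟨M, hM⟩ : ∃ M, k * (n + 2) = M + 1 := ⟨k * (n + 2) - 1, by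
    have : 0 < k * (n + 2) := by positivity
    omega⟩
  set x : ℝ := 2 * r / d with hx
  have hx0 : 0 ≤ x := by positivity
  have hx1 : x < 1 := by
    rw [hx, div_lt_one hd0]
    exact hr'
  -- comparison with the product
  have h1 : Le n (Phi n k d) ((1 - C 2 * X)⁻¹ ^ (M + 1) *
      ∏ j ∈ range k, (1 + C (d * (1 / ((j : ℝ) + 1))) * X)) := by
    rw [Phi_eq]
    refine Le.mul (nn_u_prod n k) (nn_prod _ _ fun j hj => nn_lin (lin_nonneg hd hj)) ?_ ?_
    · have h2 := le_prod (n := n) (range k) (fun j => u n (2 - 1 / ((j : ℝ) + 1)))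
        (fun _ => (1 - C 2 * X)⁻¹ ^ (n + 2)) (fun j _ => nn_u n (b_bounds j).1)
        (fun j _ => u_le n (b_bounds j).1 (b_bounds j).2)
      rw [Finset.prod_const, Finset.card_range, ← pow_mul, mul_comm (n + 2) k, hM] at h2
      exact h2
    · refine le_prod _ _ _ (fun j hj => nn_lin (lin_nonneg hd hj)) fun j _ => lin_le ?_
      rw [mul_one_div]
      linarith
  have h2 := h1 m hm
  rw [coeff_mul] at h2
  -- the ratios
  have h3 : ∀ b a : ℕ, a + b = m → e k a ≤ r ^ b * e k m := by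
    intro b
    induction b with
    | zero => intro a hab; rw [← hab]; simp
    | succ b ih =>
      intro a hab
      have h4 := h a (by omega)
      have h5 := ih (a + 1) (by omega)
      calc e k a ≤ r * e k (a + 1) := h4
        _ ≤ r * (r ^ b * e k m) := mul_le_mul_of_nonneg_left h5 hr
        _ = r ^ (b + 1) * e k m := by ring
  have h4 : ∑ p ∈ HasAntidiagonal.antidiagonal m, coeff p.1 ((1 - C 2 * X : PowerSeries ℝ)⁻¹ ^ (M + 1)) *
      coeff p.2 (∏ j ∈ range k, (1 + C (d * (1 / ((j : ℝ) + 1))) * X)) ≤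
      ∑ p ∈ HasAntidiagonal.antidiagonal m, (x ^ p.1 * ((M + p.1).choose M : ℝ)) * (d ^ m * e k m) := by
    refine Finset.sum_le_sum fun p hp => ?_
    have hp := Finset.HasAntidiagonal.mem_antidiagonal.1 hp
    rw [coeff_inv_pow, coeff_lin_prod]
    have h5 := h3 p.1 p.2 (by omega)
    have h6 : x ^ p.1 * d ^ m = 2 ^ p.1 * r ^ p.1 * d ^ p.2 := by
      rw [← hp, pow_add, hx, div_pow, mul_pow]
      field_simp
    calc 2 ^ p.1 * ((M + p.1).choose M : ℝ) * (d ^ p.2 * e k p.2)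
        ≤ 2 ^ p.1 * ((M + p.1).choose M : ℝ) * (d ^ p.2 * (r ^ p.1 * e k m)) := by gcongr
      _ = ((M + p.1).choose M : ℝ) * e k m * (2 ^ p.1 * r ^ p.1 * d ^ p.2) := by ring
      _ = x ^ p.1 * ((M + p.1).choose M : ℝ) * (d ^ m * e k m) := by rw [← h6]; ring
  have h9 : ∑ p ∈ HasAntidiagonal.antidiagonal m, (x ^ p.1 * ((M + p.1).choose M : ℝ)) =
      ∑ b ∈ range (m + 1), x ^ b * ((M + b).choose M : ℝ) :=
    Finset.Nat.sum_antidiagonal_eq_sum_range_succ_mk
      (fun p : ℕ × ℕ => x ^ p.1 * ((M + p.1).choose M : ℝ)) m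
  rw [← Finset.sum_mul, h9] at h4
  have h5 := sum_choose_le M (m + 1) hx0 hx1
  have h6 : 0 ≤ d ^ m * e k m := mul_nonneg (by positivity) (e_nonneg k m)
  have h7 : 0 < (1 - x) ^ (M + 1) := by
    have : 0 < 1 - x := by linarith
    positivity
  rw [hM]
  have h8 : coeff m (Phi n k d) ≤ 1 / (1 - x) ^ (M + 1) * (d ^ m * e k m) :=
    h2.trans (h4.trans (mul_le_mul_of_nonneg_right h5 h6))
  calc coeff m (Phi n k d) * (1 - x) ^ (M + 1)
      ≤ 1 / (1 - x) ^ (M + 1) * (d ^ m * e k m) * (1 - x) ^ (M + 1) :=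
        mul_le_mul_of_nonneg_right h8 h7.le
    _ = d ^ m * e k m := by field_simp

/-- the harmonic sum -/
theorem harm (n : ℕ) (hn : 0 < n) : 1 ≤ ∑ j ∈ Ico (n - 1) (3 * n), 1 / ((j : ℝ) + 1) := by
  have key : ∀ m, n ≤ m + 1 → Real.log ((m : ℝ) + 1) - Real.log n ≤
      ∑ j ∈ Ico (n - 1) m, 1 / ((j : ℝ) + 1) := by
    intro m hm
    obtain ⟨t, rfl⟩ : ∃ t, m = (n - 1) + t := ⟨m - (n - 1), by omega⟩
    clear hm
    induction t with
    | zero =>
      rw [add_zero, Finset.Ico_self, Finset.sum_empty]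
      have : (((n - 1 : ℕ) : ℝ)) + 1 = n := by
        have h : n - 1 + 1 = n := by omega
        exact_mod_cast h
      rw [this, sub_self]
    | succ t ih =>
      rw [← add_assoc, Finset.sum_Ico_succ_top (by omega)]
      have h0 : (0 : ℝ) < ((n - 1 + t : ℕ) : ℝ) + 1 := by positivity
      have h1 : Real.log (((n - 1 + t + 1 : ℕ) : ℝ) + 1) - Real.log (((n - 1 + t : ℕ) : ℝ) + 1) ≤
          1 / (((n - 1 + t : ℕ) : ℝ) + 1) := by
        rw [← Real.log_div (by positivity) h0.ne']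
        refine (Real.log_le_sub_one_of_pos (by positivity)).trans (le_of_eq ?_)
        rw [div_sub_one h0.ne']
        congr 1
        push_cast
        ring
      linarith
  have h1 := key (3 * n) (by omega)
  have h2 : (1 : ℝ) ≤ Real.log (((3 * n : ℕ) : ℝ) + 1) - Real.log n := by
    have hn' : (0 : ℝ) < n := by exact_mod_cast hn
    rw [← Real.log_div (by positivity) hn'.ne']
    rw [Real.le_log_iff_exp_le (by positivity), le_div_iff₀ hn']
    have := Real.exp_one_lt_d9
    push_cast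
    nlinarith
  linarith

/-- the ratios for `k = 3n` -/
theorem ratio (n : ℕ) (i : ℕ) (hi : i < n) : e (3 * n) i ≤ n * e (3 * n) (i + 1) := by
  have h1 := e_add (3 * n) i
  have h2 : 1 ≤ ∑ j ∈ Ico i (3 * n), 1 / ((j : ℝ) + 1) := by
    refine (harm n (by omega)).trans ?_
    refine Finset.sum_le_sum_of_subset_of_nonneg ?_ fun j _ _ => by positivity
    exact Finset.Ico_subset_Ico_left (by omega)
  have h3 := e_nonneg (3 * n) i
  have h4 := e_nonneg (3 * n) (i + 1)
  have h5 : (i : ℝ) + 1 ≤ n := by exact_mod_cast hi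
  calc e (3 * n) i = 1 * e (3 * n) i := (one_mul _).symm
    _ ≤ (∑ j ∈ Ico i (3 * n), 1 / ((j : ℝ) + 1)) * e (3 * n) i := mul_le_mul_of_nonneg_right h2 h3
    _ ≤ (i + 1) * e (3 * n) (i + 1) := h1
    _ ≤ n * e (3 * n) (i + 1) := mul_le_mul_of_nonneg_right h5 h4

/-- **The estimates for `k = 3n`**, `N = n + k n - 1`. -/
theorem phi_main (n : ℕ) (hn : 0 < n) {d : ℝ} (hd : 200 * n ^ 3 ≤ d) :
    97 / 100 * (d ^ n * e (3 * n) n) ≤ coeff n (Phi n (3 * n) d) ∧
      (n + 3 * n * n - 1) * coeff (n - 1) (Phi n (3 * n) d) * d ≤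
        4 * n ^ 3 * coeff n (Phi n (3 * n) d) := by
  have hn' : (1 : ℝ) ≤ n := by exact_mod_cast hn
  have hn2 : (n : ℝ) ≤ (n : ℝ) ^ 3 := by
    calc (n : ℝ) = n ^ 1 := (pow_one _).symm
      _ ≤ n ^ 3 := pow_le_pow_right₀ hn' (by norm_num)
  have hn3 : (n : ℝ) ^ 2 ≤ (n : ℝ) ^ 3 := pow_le_pow_right₀ hn' (by norm_num)
  have hd0 : 0 < d := by nlinarith
  have hk : 0 < 3 * n := by omega
  have hd1 : 2 * ((3 * n : ℕ) : ℝ) ≤ d := by push_cast; nlinarith
  have lo := phi_lower n (3 * n) hk hd1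
  have up := phi_upper n (3 * n) (n - 1) hk (r := n) hd1 (by positivity) (by nlinarith)
    (fun i hi => ratio n i (by omega)) (by omega)
  have hr := ratio n (n - 1) (by omega)
  rw [show n - 1 + 1 = n by omega] at hr
  have he := e_nonneg (3 * n) n
  have he' := e_nonneg (3 * n) (n - 1)
  push_cast at lo up
  -- the two corrections
  have c1 : 97 / 100 ≤ (1 - 2 * (3 * (n : ℝ)) / d) ^ n := by
    have h1 := one_add_mul_le_pow (a := -(2 * (3 * (n : ℝ)) / d)) (by
      have : 2 * (3 * (n : ℝ)) / d ≤ 1 := by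
        rw [div_le_one hd0]
        nlinarith
      linarith) n
    rw [← sub_eq_add_neg] at h1
    refine le_trans ?_ h1
    have h2 : (n : ℝ) * (2 * (3 * n) / d) ≤ 3 / 100 := by
      rw [← mul_div_assoc, div_le_iff₀ hd0]
      nlinarith
    linarith
  have c2 : 91 / 100 ≤ (1 - 2 * (n : ℝ) / d) ^ (3 * n * (n + 2)) := by
    have h1 := one_add_mul_le_pow (a := -(2 * (n : ℝ) / d)) (by
      have : 2 * (n : ℝ) / d ≤ 1 := by
        rw [div_le_one hd0]
        nlinarith
      linarith) (3 * n * (n + 2))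
    rw [← sub_eq_add_neg] at h1
    refine le_trans ?_ h1
    have h2 : ((3 * n * (n + 2) : ℕ) : ℝ) * (2 * n / d) ≤ 9 / 100 := by
      rw [← mul_div_assoc, div_le_iff₀ hd0]
      push_cast
      nlinarith
    linarith
  set P := coeff n (Phi n (3 * n) d) with hP
  set Q := coeff (n - 1) (Phi n (3 * n) d) with hQ
  have hde : 0 ≤ d ^ n * e (3 * n) n := mul_nonneg (by positivity) he
  have lo' : 97 / 100 * (d ^ n * e (3 * n) n) ≤ P := by
    refine le_trans ?_ lo
    rw [mul_assoc]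
    exact mul_le_mul_of_nonneg_right c1 hde
  constructor
  · linarith
  · have hQ0 : 0 ≤ Q := by
      rw [hQ, Phi_eq]
      refine NN.mul (n := n) (nn_u_prod n (3 * n)) (nn_prod _ _ fun j hj => nn_lin (lin_nonneg ?_ hj))
        (n - 1) (by omega)
      exact hd1
    have up' : Q * (91 / 100) ≤ d ^ (n - 1) * (n * e (3 * n) n) := by
      refine le_trans (mul_le_mul_of_nonneg_left c2 hQ0) (up.trans ?_)
      exact mul_le_mul_of_nonneg_left hr (by positivity)
    have hdn : d ^ (n - 1) * d = d ^ n := by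
      rw [← pow_succ]
      congr 1
      omega
    have up2 : Q * d * (91 / 100) ≤ n * (d ^ n * e (3 * n) n) := by
      calc Q * d * (91 / 100) = Q * (91 / 100) * d := by ring
        _ ≤ d ^ (n - 1) * (n * e (3 * n) n) * d := mul_le_mul_of_nonneg_right up' hd0.le
        _ = n * (d ^ (n - 1) * d * e (3 * n) n) := by ring
        _ = n * (d ^ n * e (3 * n) n) := by rw [hdn]
    have hN : 0 ≤ (n : ℝ) + 3 * n * n - 1 := by nlinarith
    have hN2 : ((n : ℝ) + 3 * n * n - 1) * n ≤ 13 / 4 * n ^ 3 := by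
      nlinarith [mul_nonneg (by linarith : (0 : ℝ) ≤ n) (sq_nonneg ((n : ℝ) - 2))]
    calc ((n : ℝ) + 3 * n * n - 1) * Q * d
        = ((n : ℝ) + 3 * n * n - 1) * (Q * d * (91 / 100)) * (100 / 91) := by ring
      _ ≤ ((n : ℝ) + 3 * n * n - 1) * (n * (d ^ n * e (3 * n) n)) * (100 / 91) := by gcongr
      _ = ((n : ℝ) + 3 * n * n - 1) * n * (d ^ n * e (3 * n) n) * (100 / 91) := by ring
      _ ≤ 13 / 4 * n ^ 3 * (d ^ n * e (3 * n) n) * (100 / 91) := by gcongr
      _ ≤ 4 * n ^ 3 * (97 / 100 * (d ^ n * e (3 * n) n)) := by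
        have : 0 ≤ (n : ℝ) ^ 3 * (d ^ n * e (3 * n) n) := mul_nonneg (by positivity) hde
        nlinarith
      _ ≤ 4 * n ^ 3 * P := mul_le_mul_of_nonneg_left lo' (by positivity)

end Pool.Agent.H39.KB
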