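import Pool.Agent.H39.KB.Phi
import Pool.Agent.H47.KB.Defs

/-!
# The volume estimate

The coefficient of `x^n` in `(1 + 2x)^N ∏ (1 + d x/j) / (1 + x/j)^(n+2)` is the coefficient of `y^n` in the power
series `Φ`, by the substitution `x = y/(1 - 2y)`.
-/

set_option autoImplicit false

open Finset PowerSeries

namespace Pool.Agent.H39.KB

/-- `1 - 2y` -/
noncomputable def ll : PowerSeries ℝ := 1 - C 2 * X

theorem ll_mul_inv : ll * ll⁻¹ = 1 := PowerSeries.mul_inv_cancel _ (by simp [ll])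

/-- `y/(1 - 2y)` -/
noncomputable def hh : PowerSeries ℝ := X * ll⁻¹

theorem hasSubst_hh : HasSubst hh := HasSubst.of_constantCoeff_zero' (by simp [hh])

/-- the substitution `x = y/(1 - 2y)` -/
noncomputable def sb : PowerSeries ℝ →ₐ[ℝ] PowerSeries ℝ := substAlgHom hasSubst_hh

theorem sb_X : sb X = X * ll⁻¹ := substAlgHom_X hasSubst_hh

theorem sb_C (c : ℝ) : sb (C c) = C c := sb.commutes c

/-- `x^m` -/
theorem coeff_pow (s m : ℕ) : coeff (s + 1) ((X * ll⁻¹) ^ m * ll ^ s) = if m = s + 1 then 1 else 0 := by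
  rw [mul_pow, mul_assoc, coeff_X_pow_mul']
  by_cases h : m ≤ s
  · rw [if_pos (by omega), if_neg (by omega)]
    obtain ⟨t, rfl⟩ : ∃ t, s = m + t := ⟨s - m, by omega⟩
    have h1 : ll⁻¹ ^ m * ll ^ (m + t) = ll ^ t := by
      rw [pow_add, ← mul_assoc, ← mul_pow, mul_comm ll⁻¹ ll, ll_mul_inv, one_pow, one_mul]
    rw [h1, show m + t + 1 - m = t + 1 by omega]
    have h2 : ll ^ t = ((1 - Polynomial.C 2 * Polynomial.X) ^ t : Polynomial ℝ) := by
      rw [Polynomial.coe_pow, Polynomial.coe_sub, Polynomial.coe_mul, Polynomial.coe_one,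
        Polynomial.coe_C, Polynomial.coe_X]
      rfl
    rw [h2, Polynomial.coeff_coe]
    refine Polynomial.coeff_eq_zero_of_natDegree_lt ?_
    refine lt_of_le_of_lt (Polynomial.natDegree_pow_le_of_le t
      (show (1 - Polynomial.C 2 * Polynomial.X : Polynomial ℝ).natDegree ≤ 1 by compute_degree)) ?_
    omega
  · by_cases h' : m = s + 1
    · rw [if_pos (by omega), if_pos h', h', Nat.sub_self, pow_succ', mul_assoc, ← mul_pow,
        mul_comm ll⁻¹ ll, ll_mul_inv, one_pow, mul_one]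
      simp [ll]
    · rw [if_neg (by omega), if_neg h']

/-- change of variables -/
theorem coeff_cv (s : ℕ) (f : PowerSeries ℝ) : coeff (s + 1) (sb f * ll ^ s) = coeff (s + 1) f := by
  have h1 := eq_X_pow_mul_shift_add_trunc (s + 2) f
  set g : PowerSeries ℝ := mk fun i => coeff (i + (s + 2)) f
  have h2 : (trunc (s + 2) f : PowerSeries ℝ) = ∑ i ∈ range (s + 2), C (coeff i f) * X ^ i := by
    ext j
    rw [Polynomial.coeff_coe, coeff_trunc, map_sum]
    simp only [coeff_C_mul, coeff_X_pow, mul_ite, mul_one, mul_zero]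
    rw [Finset.sum_ite_eq (range (s + 2)) j]
    simp only [Finset.mem_range]
  rw [h2] at h1
  have h3 : sb f = (X * ll⁻¹) ^ (s + 2) * sb g + ∑ i ∈ range (s + 2), C (coeff i f) * (X * ll⁻¹) ^ i := by
    conv_lhs => rw [h1]
    rw [map_add, map_mul, map_pow, sb_X, map_sum]
    congr 1
    refine Finset.sum_congr rfl fun i _ => ?_
    rw [map_mul, sb_C, map_pow, sb_X]
  rw [h3, add_mul, map_add, Finset.sum_mul, map_sum]
  have h4 : coeff (s + 1) ((X * ll⁻¹) ^ (s + 2) * sb g * ll ^ s) = 0 := by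
    rw [mul_pow, mul_assoc, mul_assoc, coeff_X_pow_mul', if_neg (by omega)]
  rw [h4, zero_add]
  have h5 : ∀ i ∈ range (s + 2), coeff (s + 1) (C (coeff i f) * (X * ll⁻¹) ^ i * ll ^ s) =
      if i = s + 1 then coeff i f else 0 := by
    intro i _
    rw [mul_assoc, coeff_C_mul, coeff_pow, mul_ite, mul_one, mul_zero]
  rw [Finset.sum_congr rfl h5, Finset.sum_ite_eq' (range (s + 2)) (s + 1), if_pos (by simp)]

theorem sb_lin (c : ℝ) : sb (1 + C c * X) = (1 + C (c - 2) * X) * ll⁻¹ := by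
  rw [map_add, map_one, map_mul, sb_C, sb_X, map_sub]
  have h := ll_mul_inv
  calc 1 + C c * (X * ll⁻¹) = ll * ll⁻¹ + C c * (X * ll⁻¹) := by rw [h]
    _ = (1 + (C c - C 2) * X) * ll⁻¹ := by unfold ll; ring

theorem sb_inv (f : PowerSeries ℝ) (hf : constantCoeff f ≠ 0) (g : PowerSeries ℝ) (hg : sb f * g = 1) :
    sb f⁻¹ = g := by
  have h1 : sb f * sb f⁻¹ = 1 := by rw [← map_mul, PowerSeries.mul_inv_cancel _ hf, map_one]
  calc sb f⁻¹ = sb f⁻¹ * (sb f * g) := by rw [hg, mul_one]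
    _ = (sb f * sb f⁻¹) * g := by ring
    _ = g := by rw [h1, one_mul]

theorem lin_mul_inv (c : ℝ) : (1 + C c * X : PowerSeries ℝ) * (1 + C c * X)⁻¹ = 1 :=
  PowerSeries.mul_inv_cancel _ (by simp)

theorem sb_lin_inv (c : ℝ) : sb (1 + C c * X)⁻¹ = (1 + C (c - 2) * X)⁻¹ * ll := by
  refine sb_inv _ (by simp) _ ?_
  rw [sb_lin]
  calc (1 + C (c - 2) * X) * ll⁻¹ * ((1 + C (c - 2) * X)⁻¹ * ll)
      = ((1 + C (c - 2) * X) * (1 + C (c - 2) * X)⁻¹) * (ll * ll⁻¹) := by ring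
    _ = 1 := by rw [lin_mul_inv, ll_mul_inv, one_mul]

/-- the two forms of the volume -/
theorem segre_cv (n k d s : ℕ) :
    coeff (s + 1) ((1 + C 2 * X) ^ (k * n + s) * Pool.Agent.H47.KB.segre n k d) =
      coeff (s + 1) (Phi n k d) := by
  rw [← coeff_cv]
  congr 1
  rw [map_mul, map_pow, sb_lin, sub_self, map_zero, zero_mul, add_zero, one_mul]
  unfold Pool.Agent.H47.KB.segre Phi
  rw [map_prod]
  have h1 : ∀ j ∈ range k, sb ((1 + C ((d : ℝ) / (j + 1)) * X) * (1 + C ((1 : ℝ) / (j + 1)) * X)⁻¹ ^ (n + 2)) =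
      ll ^ n * (((1 - C 2 * X) * (1 + C ((d : ℝ) / ((j : ℝ) + 1) - 2) * X) *
        (1 - C (2 - 1 / ((j : ℝ) + 1)) * X)⁻¹ ^ (n + 2))) := by
    intro j _
    rw [map_mul, map_pow, sb_lin, sb_lin_inv, mul_pow]
    have e1 : (1 + C ((1 : ℝ) / (j + 1) - 2) * X : PowerSeries ℝ) = 1 - C (2 - 1 / ((j : ℝ) + 1)) * X := by
      rw [← neg_sub (2 : ℝ), map_neg]
      ring
    rw [e1]
    have e2 : ll⁻¹ * ll ^ (n + 2) = ll ^ n * ll := by
      rw [show n + 2 = 1 + (n + 1) by omega, pow_add, pow_one, ← mul_assoc, mul_comm ll⁻¹ ll, ll_mul_inv,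
        one_mul, pow_succ]
    calc (1 + C ((d : ℝ) / (j + 1) - 2) * X) * ll⁻¹ *
          ((1 - C (2 - 1 / ((j : ℝ) + 1)) * X)⁻¹ ^ (n + 2) * ll ^ (n + 2))
        = (1 + C ((d : ℝ) / (j + 1) - 2) * X) * (1 - C (2 - 1 / ((j : ℝ) + 1)) * X)⁻¹ ^ (n + 2) *
          (ll⁻¹ * ll ^ (n + 2)) := by ring
      _ = _ := by rw [e2]; unfold ll; ring
  rw [Finset.prod_congr rfl h1, Finset.prod_mul_distrib, Finset.prod_const, Finset.card_range, ← pow_mul]
  have h2 : ll⁻¹ ^ (k * n + s) * (ll ^ (n * k) * ll ^ s) = 1 := by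
    rw [mul_comm n k, ← pow_add, ← mul_pow, mul_comm ll⁻¹ ll, ll_mul_inv, one_pow]
  set Q := ∏ j ∈ range k, ((1 - C 2 * X) * (1 + C ((d : ℝ) / ((j : ℝ) + 1) - 2) * X) *
    (1 - C (2 - 1 / ((j : ℝ) + 1)) * X)⁻¹ ^ (n + 2) : PowerSeries ℝ)
  calc ll⁻¹ ^ (k * n + s) * (ll ^ (n * k) * Q) * ll ^ s
      = (ll⁻¹ ^ (k * n + s) * (ll ^ (n * k) * ll ^ s)) * Q := by ring
    _ = Q := by rw [h2, one_mul]

theorem coeff_bin (N i : ℕ) : coeff i ((1 + C 2 * X : PowerSeries ℝ) ^ N) = (N.choose i : ℝ) * 2 ^ i := by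
  have h1 : (1 + C 2 * X : PowerSeries ℝ) ^ N =
      rescale 2 (((1 + Polynomial.X) ^ N : Polynomial ℝ) : PowerSeries ℝ) := by
    rw [Polynomial.coe_pow, Polynomial.coe_add, Polynomial.coe_one, Polynomial.coe_X, map_pow, map_add,
      map_one, rescale_X]
  rw [h1, coeff_rescale, Polynomial.coeff_coe, Polynomial.coeff_one_add_X_pow, mul_comm]

/-- sums of binomial coefficients -/
theorem sum_bin (N m : ℕ) (f : PowerSeries ℝ) :
    ∑ i ∈ range (m + 1), (N.choose i : ℝ) * 2 ^ i * coeff (m - i) f =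
      coeff m ((1 + C 2 * X) ^ N * f) := by
  rw [coeff_mul]
  have h := Finset.Nat.sum_antidiagonal_eq_sum_range_succ_mk
    (fun p : ℕ × ℕ => coeff p.1 ((1 + C 2 * X : PowerSeries ℝ) ^ N) * coeff p.2 f) m
  refine Eq.trans ?_ h.symm
  refine Finset.sum_congr rfl fun i _ => ?_
  rw [coeff_bin]

open Pool.Agent.H47.KB in
/-- **The volume estimate.** -/
theorem vol_ge (n d : ℕ) (hn : 2 ≤ n) (hd : 300 * n ^ 3 ≤ d) (I : ℕ → ℝ)
    (hI : ∀ i ≤ n, I i = (d : ℝ) / (((3 * n).factorial : ℝ) ^ n) *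
      PowerSeries.coeff (n - i) (segre n (3 * n) d)) :
    12 / 25 * (d : ℝ) ^ (n + 1) / (n.factorial * ((3 * n).factorial : ℝ) ^ n) ≤
      vol0 n (3 * n) I - dimN n (3 * n) * ((d : ℝ) / (8 * n ^ 3)) * vol1 n (3 * n) I := by
  have hd' : 200 * (n : ℝ) ^ 3 ≤ d := by
    have h1 : (300 * n ^ 3 : ℝ) ≤ d := by exact_mod_cast hd
    have h2 : (0 : ℝ) ≤ (n : ℝ) ^ 3 := by positivity
    linarith
  obtain ⟨h1, h2⟩ := phi_main n (by omega) hd'
  have h3 := le_e (k := 3 * n) (i := n) (by omega)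
  set c : ℝ := (d : ℝ) / (((3 * n).factorial : ℝ) ^ n) with hc
  have hc0 : 0 ≤ c := by positivity
  have hn0 : (0 : ℝ) < (n : ℝ) ^ 3 := by
    have : (0 : ℝ) < n := by exact_mod_cast (by omega : 0 < n)
    positivity
  -- the two volumes
  have v0 : vol0 n (3 * n) I = c * coeff n (Phi n (3 * n) d) := by
    unfold vol0
    have e1 : ∀ i ∈ range (n + 1), ((dimN n (3 * n)).choose i : ℝ) * 2 ^ i * I i =
        c * (((dimN n (3 * n)).choose i : ℝ) * 2 ^ i * coeff (n - i) (segre n (3 * n) d)) := by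
      intro i hi
      rw [hI i (by have := Finset.mem_range.1 hi; omega)]
      ring
    rw [Finset.sum_congr rfl e1, ← Finset.mul_sum, sum_bin]
    obtain ⟨s, rfl⟩ : ∃ s, n = s + 1 := ⟨n - 1, by omega⟩
    have e2 : dimN (s + 1) (3 * (s + 1)) = 3 * (s + 1) * (s + 1) + s := by
      unfold dimN
      omega
    rw [e2, segre_cv]
  have v1 : vol1 n (3 * n) I = c * coeff (n - 1) (Phi n (3 * n) d) := by
    unfold vol1
    have e1 : ∀ i ∈ range n, ((dimN n (3 * n) - 1).choose i : ℝ) * 2 ^ i * I (i + 1) =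
        c * (((dimN n (3 * n) - 1).choose i : ℝ) * 2 ^ i * coeff (n - 1 - i) (segre n (3 * n) d)) := by
      intro i hi
      rw [hI (i + 1) (by have := Finset.mem_range.1 hi; omega), show n - (i + 1) = n - 1 - i by omega]
      ring
    have e4 := sum_bin (dimN n (3 * n) - 1) (n - 1) (segre n (3 * n) d)
    rw [show n - 1 + 1 = n by omega] at e4
    rw [Finset.sum_congr rfl e1, ← Finset.mul_sum, e4]
    obtain ⟨s, rfl⟩ : ∃ s, n = s + 2 := ⟨n - 2, by omega⟩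
    have e2 : dimN (s + 2) (3 * (s + 2)) - 1 = 3 * (s + 2) * (s + 2) + s := by
      unfold dimN
      omega
    rw [e2, show s + 2 - 1 = s + 1 by omega, segre_cv]
  have hN : ((dimN n (3 * n) : ℕ) : ℝ) = n + 3 * n * n - 1 := by
    unfold dimN
    rw [Nat.cast_sub (by nlinarith)]
    push_cast
    ring
  rw [v0, v1, hN]
  set P := coeff n (Phi n (3 * n) (d : ℝ))
  set Q := coeff (n - 1) (Phi n (3 * n) (d : ℝ))
  have h4 : ((n : ℝ) + 3 * n * n - 1) * (d / (8 * n ^ 3)) * (c * Q) ≤ c * (P / 2) := by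
    have e1 : ((n : ℝ) + 3 * n * n - 1) * (d / (8 * n ^ 3)) * (c * Q) =
        c * ((((n : ℝ) + 3 * n * n - 1) * Q * d) / (8 * n ^ 3)) := by ring
    rw [e1]
    refine mul_le_mul_of_nonneg_left ?_ hc0
    rw [div_le_iff₀ (by positivity)]
    linarith
  have h5 : 97 / 100 * (d : ℝ) ^ n / n.factorial ≤ P := by
    refine le_trans ?_ h1
    calc 97 / 100 * (d : ℝ) ^ n / n.factorial = 97 / 100 * ((d : ℝ) ^ n * (1 / n.factorial)) := by ring
      _ ≤ 97 / 100 * ((d : ℝ) ^ n * e (3 * n) n) := by gcongr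
  have h6 : 12 / 25 * (d : ℝ) ^ (n + 1) / (n.factorial * ((3 * n).factorial : ℝ) ^ n) ≤
      c * (P / 2) := by
    have e1 : 12 / 25 * (d : ℝ) ^ (n + 1) / (n.factorial * ((3 * n).factorial : ℝ) ^ n) =
        c * (12 / 25 * (d : ℝ) ^ n / n.factorial) := by
      rw [hc, pow_succ]
      field_simp
    rw [e1]
    refine mul_le_mul_of_nonneg_left ?_ hc0
    have h7 : (0 : ℝ) ≤ (d : ℝ) ^ n / n.factorial := by positivity
    have e2 : 12 / 25 * (d : ℝ) ^ n / n.factorial = 12 / 25 * ((d : ℝ) ^ n / n.factorial) := by ring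
    have e3 : 97 / 100 * (d : ℝ) ^ n / n.factorial = 97 / 100 * ((d : ℝ) ^ n / n.factorial) := by ring
    rw [e3] at h5
    rw [e2]
    linarith
  linarith

end Pool.Agent.H39.KB
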